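import Pool.Agent.MP_9096b7_lc.Final

/-! It is consistent with ZFC that the additivity of the ideal of the meager-additive sets is
larger than the additivity of the meager ideal: there are a model `(M, E)` of ZFC and, in this
model, a set `k` with `add(M) ≤ |k|` and not `add(MA) ≤ |k|`. -/

namespace Pool.Agent.Results.MP_9096b7_lc.AddMA

open Pool.Agent.SetModel Pool.Agent.MP63050e Pool.Agent.MP9096b7

theorem result : ∃ (M : Type 1) (E : M → M → Prop), IsModelZFC E ∧ ∃ w o t k : M,
    IsOmega E w ∧ IsTwo E o t ∧ AddLe E (IsMeager E w t) k ∧ ¬ AddLe E (IsMA E w o t) k :=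
  final

end Pool.Agent.Results.MP_9096b7_lc.AddMA
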